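import Pool.Agent.Q72.EL.Stm2

/-!
# Project EL (helper72), job LOW: a multiple of `R` modulo `I` which is constant in the directions `a_k`

(The sheet is not needed: if the linear forms killing the `a_k` are algebraically dependent modulo `I` one
takes `β = 0`, and otherwise they are a transcendence basis of `ℂ[x]/I`.)
-/

set_option autoImplicit false

namespace Pool.Agent.Q162.EL

open MvPolynomial Filter Topology Metric
open Pool.Agent.Q72.EL

/-- the linear form with the coefficients `q` -/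
noncomputable def lf {n : ℕ} (q : Fin n → ℂ) : MvPolynomial (Fin n) ℂ := ∑ l, C (q l) * X l

theorem eval_lf {n : ℕ} (q x : Fin n → ℂ) : eval x (lf q) = ∑ l, q l * x l := by
  unfold lf
  simp

/-- independent linear forms killing given vectors -/
theorem exists_forms {n c : ℕ} (hc : c ≤ n) (v : Fin c → Fin n → ℂ) :
    ∃ q : Fin (n - c) → Fin n → ℂ, LinearIndependent ℂ q ∧ ∀ i k, ∑ l, q i l * v k l = 0 := by
  let F : (Fin n → ℂ) →ₗ[ℂ] (Fin c → ℂ) :=
    LinearMap.pi fun k => ∑ l, v k l • LinearMap.proj l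
  have hF : ∀ q k, F q k = ∑ l, q l * v k l := by
    intro q k
    simp [F, mul_comm]
  have h1 := LinearMap.finrank_range_add_finrank_ker F
  have h2 : Module.finrank ℂ (LinearMap.range F) ≤ c := by
    have h := Submodule.finrank_le (LinearMap.range F)
    rw [Module.finrank_fin_fun] at h
    exact h
  rw [Module.finrank_fin_fun] at h1
  have h3 : n - c ≤ Module.finrank ℂ (LinearMap.ker F) := by omega
  obtain ⟨g, hg⟩ := exists_linearIndependent_of_le_finrank h3
  refine ⟨fun i => (g i : Fin n → ℂ), ?_, ?_⟩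
  · exact hg.map' (LinearMap.ker F).subtype (Submodule.ker_subtype _)
  · intro i k
    rw [← hF]
    have h := (g i).2
    rw [LinearMap.mem_ker] at h
    rw [h]
    rfl

/-- independent linear forms are algebraically independent -/
theorem forms_ai {n m : ℕ} (q : Fin m → Fin n → ℂ) (hq : LinearIndependent ℂ q)
    (g : MvPolynomial (Fin m) ℂ) (hg : aeval (fun i => lf (q i)) g = 0) : g = 0 := by
  have hsurj : ∀ y : Fin m → ℂ, ∃ x : Fin n → ℂ, ∀ i, ∑ l, q i l * x l = y i := by
    intro y
    have h1 : LinearIndependent ℂ (Matrix.of q).row := hq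
    have h2 : (Matrix.of q).rank = m := by
      rw [h1.rank_matrix, Fintype.card_fin]
    have h3 : LinearMap.range (Matrix.of q).mulVecLin = ⊤ := by
      apply Submodule.eq_top_of_finrank_eq
      rw [Module.finrank_fin_fun]
      exact h2
    obtain ⟨x, hx⟩ := LinearMap.range_eq_top.1 h3 y
    refine ⟨x, fun i => ?_⟩
    have h4 := congrFun hx i
    rw [Matrix.mulVecLin_apply] at h4
    exact h4
  apply MvPolynomial.funext
  intro y
  obtain ⟨x, hx⟩ := hsurj y
  have h1 : eval x (aeval (fun i => lf (q i)) g) = eval y g := by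
    have h2 : eval x (aeval (fun i => lf (q i)) g) = aeval (fun i => eval x (lf (q i))) g := by
      have h3 : (MvPolynomial.aeval x : MvPolynomial (Fin n) ℂ →ₐ[ℂ] ℂ) (aeval (fun i => lf (q i)) g) =
          aeval (fun i => (MvPolynomial.aeval x : MvPolynomial (Fin n) ℂ →ₐ[ℂ] ℂ) (lf (q i))) g := by
        rw [← AlgHom.comp_apply, comp_aeval]
      exact h3
    rw [h2]
    have h4 : (fun i => eval x (lf (q i))) = y := by
      funext i
      rw [eval_lf, hx i]
    rw [h4]
    rfl
  rw [← h1, hg]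
  simp

theorem inv_forms {n c m : ℕ} (v : Fin c → Fin n → ℂ) (q : Fin m → Fin n → ℂ)
    (hq : ∀ i k, ∑ l, q i l * v k l = 0) (g : MvPolynomial (Fin m) ℂ) (x : Fin n → ℂ) (t : Fin c → ℂ) :
    eval (fun l => x l + ∑ j, t j * v j l) (aeval (fun i => lf (q i)) g) =
      eval x (aeval (fun i => lf (q i)) g) := by
  have h2 : ∀ x : Fin n → ℂ, eval x (aeval (fun i => lf (q i)) g) = aeval (fun i => eval x (lf (q i))) g := by
    intro x
    have h3 : (MvPolynomial.aeval x : MvPolynomial (Fin n) ℂ →ₐ[ℂ] ℂ) (aeval (fun i => lf (q i)) g) =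
        aeval (fun i => (MvPolynomial.aeval x : MvPolynomial (Fin n) ℂ →ₐ[ℂ] ℂ) (lf (q i))) g := by
      rw [← AlgHom.comp_apply, comp_aeval]
    exact h3
  rw [h2, h2]
  congr 2
  funext i
  rw [eval_lf, eval_lf]
  have h4 : ∑ l, q i l * (x l + ∑ j, t j * v j l) = ∑ l, q i l * x l + ∑ j, t j * ∑ l, q i l * v j l := by
    simp_rw [mul_add, Finset.sum_add_distrib, Finset.mul_sum]
    congr 1
    rw [Finset.sum_comm]
    refine Finset.sum_congr rfl fun j _ => Finset.sum_congr rfl fun l _ => ?_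
    ring
  rw [h4]
  simp [hq]

theorem low : S_low := by
  intro n c I a z hI htr _ _ R hR
  have hdom : IsDomain (MvPolynomial (Fin n) ℂ ⧸ I) := Ideal.Quotient.isDomain I
  have hcn : (c : Cardinal) ≤ (n : Cardinal) := le_trans (self_le_add_left _ _) htr
  have hc : c ≤ n := by exact_mod_cast hcn
  let v : Fin c → Fin n → ℂ := fun k l => ((a l k : ℚ) : ℂ)
  obtain ⟨q, hq, hqv⟩ := exists_forms hc v
  by_cases hA : ∃ g : MvPolynomial (Fin (n - c)) ℂ, g ≠ 0 ∧ aeval (fun i => lf (q i)) g ∈ I
  · obtain ⟨g, hg0, hg⟩ := hA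
    refine ⟨aeval (fun i => lf (q i)) g, 0, fun h => hg0 (forms_ai q hq g h), ?_, ?_⟩
    · simpa using hg
    · intro x t
      exact inv_forms v q hqv g x t
  · push Not at hA
    let π := Ideal.Quotient.mkₐ ℂ I
    have hπ : ∀ g, π g = 0 ↔ g ∈ I := fun g => by
      simp only [π, Ideal.Quotient.mkₐ_eq_mk]
      exact Ideal.Quotient.eq_zero_iff_mem
    have hcomp : ∀ g : MvPolynomial (Fin (n - c)) ℂ, aeval (fun i => π (lf (q i))) g =
        π (aeval (fun i => lf (q i)) g) := by
      intro g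
      rw [← AlgHom.comp_apply, comp_aeval]
    have hai : AlgebraicIndependent ℂ (fun i => π (lf (q i))) := by
      rw [algebraicIndependent_iff]
      intro g hg
      rw [hcomp, hπ] at hg
      by_contra h
      exact hA g h hg
    have htr2 : Algebra.trdeg ℂ (MvPolynomial (Fin n) ℂ ⧸ I) ≤ Cardinal.mk (Fin (n - c)) := by
      rw [Cardinal.mk_fin]
      have h1 : Algebra.trdeg ℂ (MvPolynomial (Fin n) ℂ ⧸ I) < Cardinal.aleph0 :=
        lt_of_le_of_lt (le_trans (self_le_add_right _ _) htr) (Cardinal.natCast_lt_aleph0)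
      obtain ⟨d, hd⟩ := Cardinal.lt_aleph0.1 h1
      rw [hd] at htr ⊢
      have h2 : d + c ≤ n := by exact_mod_cast htr
      have h3 : d ≤ n - c := by omega
      exact_mod_cast h3
    have htb := hai.isTranscendenceBasis_of_trdeg_le_of_finite htr2
    have halg : Algebra.IsAlgebraic (Algebra.adjoin ℂ (Set.range fun i => π (lf (q i))))
        (MvPolynomial (Fin n) ℂ ⧸ I) := htb.isAlgebraic
    have hR0 : π R ≠ 0 := fun h => hR ((hπ R).1 h)
    obtain ⟨r, hr0, hr⟩ := (halg.isAlgebraic (π R)).exists_nonzero_dvd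
      (mem_nonZeroDivisors_of_ne_zero hR0)
    obtain ⟨b, hb⟩ := hr
    obtain ⟨β, hβ⟩ : ∃ β, π β = b := Ideal.Quotient.mk_surjective b
    obtain ⟨g, hg⟩ : ∃ g : MvPolynomial (Fin (n - c)) ℂ, aeval (fun i => π (lf (q i))) g =
        (r : MvPolynomial (Fin n) ℂ ⧸ I) := by
      have h : (r : MvPolynomial (Fin n) ℂ ⧸ I) ∈
          (aeval (fun i => π (lf (q i))) : MvPolynomial (Fin (n - c)) ℂ →ₐ[ℂ] _).range :=
        (Algebra.adjoin_range_eq_range_aeval ℂ (fun i => π (lf (q i)))) ▸ r.2
      exact h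
    have hr1 : (r : MvPolynomial (Fin n) ℂ ⧸ I) ≠ 0 := fun h => hr0 (Subtype.ext h)
    refine ⟨aeval (fun i => lf (q i)) g, β, ?_, ?_, ?_⟩
    · intro h
      apply hr1
      rw [← hg, hcomp, h, map_zero]
    · rw [← hπ, map_sub, map_mul, ← hcomp, hg, hβ]
      have h2 : (r : MvPolynomial (Fin n) ℂ ⧸ I) = π R * b := hb
      rw [h2]
      ring
    · intro x t
      exact inv_forms v q hqv g x t

end Pool.Agent.Q162.EL
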